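import Pool.Agent.Helper46.C2.St

/-! Project C2 (MP_b3ce06_al), module UL. -/

set_option autoImplicit false

namespace Pool.Agent.Helper76.C2

open Pool.Agent.Helper46.C2 Pool.Agent.Helper43.GD Polynomial

private theorem In_mul {L A : Type} [CommRing L] [Group A] (Q : Fr L A) {a b : L}
    (ha : Q.In a) (hb : Q.In b) : Q.In (a * b) := by
  obtain ⟨u, hu, rfl⟩ := ha
  obtain ⟨v, hv, rfl⟩ := hb
  exact ⟨u * v, Q.U.mul_mem hu hv, by push_cast; ring⟩

private theorem zmod_two_eq_one {c : ZMod 2} (hc : c ≠ 0) : c = 1 := by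
  revert hc
  revert c
  decide

private theorem monic_of_ne {p : (ZMod 2)[X]} (hp : p ≠ 0) : p.Monic :=
  zmod_two_eq_one (leadingCoeff_ne_zero.2 hp)

private theorem all_of_inv {L : Type} [CommRing L] (hfin : Finite L) (x : Lˣ) (hG : Gn (x : L))
    (N : AddSubgroup L) (h1 : (1 : L) ∈ N)
    (h2 : ∀ y ∈ N, ((x⁻¹ : Lˣ) : L) * y ∈ N) : ∀ y, y ∈ N := by
  have hpow : ∀ (n : ℕ), ∀ y ∈ N, (((x⁻¹) ^ n : Lˣ) : L) * y ∈ N := by
    intro n
    induction n with
    | zero =>
      intro y hy
      simpa using hy
    | succ n ih =>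
      intro y hy
      have h3 := h2 _ (ih y hy)
      rw [pow_succ', Units.val_mul, mul_assoc]
      exact h3
  have hord : x = (x⁻¹) ^ (orderOf x - 1) := by
    have h3 : 0 < orderOf x := orderOf_pos x
    have h4 : x ^ (orderOf x) = 1 := pow_orderOf_eq_one x
    have h5 : orderOf x = (orderOf x - 1) + 1 := by omega
    rw [h5, pow_succ] at h4
    rw [inv_pow]
    exact (inv_eq_of_mul_eq_one_right h4).symm
  apply hG N h1
  intro y hy
  have h3 := hpow (orderOf x - 1) y hy
  rw [← hord] at h3
  exact h3

private theorem deg_lt {p a : (ZMod 2)[X]} (c : (ZMod 2)[X]) (hc : c.Monic) (hc1 : c.natDegree = 1)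
    (hp : p.Monic) (ha : a.Monic) (hd : a.natDegree + 1 = p.natDegree) (hne : p + c * a ≠ 0) :
    (p + c * a).natDegree < p.natDegree := by
  apply natDegree_lt_natDegree hne
  have e : p + c * a = p - c * a := (CharTwo.sub_eq_add _ _).symm
  rw [e]
  have hca : (c * a).Monic := hc.mul ha
  have hdd : (c * a).natDegree = p.natDegree := by
    rw [hc.natDegree_mul ha, hc1]
    omega
  apply degree_sub_lt_left
  · rw [degree_eq_natDegree hp.ne_zero, degree_eq_natDegree hca.ne_zero, hdd]
  · exact hp.ne_zero
  · rw [hp.leadingCoeff, hca.leadingCoeff]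

theorem hUL (h1 : StRU) (h2 : StSM) (h3 : StEXI) (h4 : StEV) (h5 : StLF) (h6 : StOD) : StUL := by
  intro k L A _ _ Q x hR hx u
  rcases subsingleton_or_nontrivial L with hs | hnt
  · have : u = 1 := Units.ext (Subsingleton.elim _ _)
    rw [this]
    exact Q.U.one_mem
  obtain ⟨ev, hev, hsurj⟩ := h4 k L x hR
  have hfin := h5 k L x hR
  obtain ⟨m, hm, hpm⟩ := h6 k L x hR
  have hxI : Q.In (x : L) := ⟨x, hx, rfl⟩
  have hx1 : Q.In ((x : L) + 1) := ⟨x ^ k, Q.U.pow_mem hx k, by push_cast; exact hR.xk⟩
  have key : ∀ (n : ℕ) (p : (ZMod 2)[X]), p.natDegree = n → IsUnit (ev p) → Q.In (ev p) := by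
    intro n
    induction n using Nat.strong_induction_on with
    | _ n ih =>
    intro p hpn hu
    have hp0 : p ≠ 0 := by
      rintro rfl
      rw [map_zero] at hu
      exact not_isUnit_zero hu
    have hmon := monic_of_ne hp0
    rcases Nat.eq_zero_or_pos n with hn | hn
    · have : p = 1 := by
        apply hmon.natDegree_eq_zero.1
        omega
      rw [this, map_one]
      exact ⟨1, Q.U.one_mem, Units.val_one⟩
    by_cases hirr : Irreducible p
    · rcases Nat.lt_or_ge n 2 with hn2 | hn2
      · have hn1 : p.natDegree = 1 := by omega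
        have hXc : p = X + C (p.coeff 0) := hmon.eq_X_add_C hn1
        by_cases hc : p.coeff 0 = 0
        · rw [hXc, hc, map_zero, add_zero, hev]
          exact hxI
        · rw [hXc, zmod_two_eq_one hc, map_one, map_add, map_one, hev]
          exact hx1
      · rcases Nat.lt_or_ge n 5 with hn5 | hn5
        · exact h2 k L A Q x hR hx ev hev p hirr (by omega) (by omega) hu
        · obtain ⟨a, hamon, hadeg, ua, ub, ub'⟩ := h3 k L x hR ev hev p hirr (by omega) hu
          have hne : ∀ q : (ZMod 2)[X], IsUnit (ev q) → q ≠ 0 := by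
            rintro q hq rfl
            rw [map_zero] at hq
            exact not_isUnit_zero hq
          have ha := ih a.natDegree (by omega) a rfl ua
          have hX1 : (X + 1 : (ZMod 2)[X]).Monic := by
            have := monic_X_add_C (1 : ZMod 2)
            rwa [map_one] at this
          have hX1d : (X + 1 : (ZMod 2)[X]).natDegree = 1 := by
            have := natDegree_X_add_C (1 : ZMod 2)
            rwa [map_one] at this
          have hb := ih (p + X * a).natDegree (by
            have := deg_lt X monic_X natDegree_X hmon hamon hadeg (hne _ ub)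
            omega) _ rfl ub
          have hb' := ih (p + (X + 1) * a).natDegree (by
            have := deg_lt (X + 1) hX1 hX1d hmon hamon hadeg (hne _ ub')
            omega) _ rfl ub'
          obtain ⟨va, hva, ea⟩ := ha
          obtain ⟨vb, hvb, eb⟩ := hb
          obtain ⟨vc, hvc, ec⟩ := hb'
          have hxx := x.mul_inv
          have hbb := vb.mul_inv
          have h2L := hR.two
          rw [map_add, map_mul, hev] at eb
          rw [map_add, map_mul, map_add, map_one, hev] at ec
          have hsum : ((x⁻¹ : Lˣ) : L) + ((va * vb⁻¹ : Lˣ) : L) =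
              ev p * ((x⁻¹ * vb⁻¹ : Lˣ) : L) := by
            push_cast
            linear_combination (-((x⁻¹ : Lˣ) : L)) * hbb - ((va : L) * ((vb⁻¹ : Lˣ) : L)) * hxx +
              ((x⁻¹ : Lˣ) : L) * ((vb⁻¹ : Lˣ) : L) * eb +
              ((x⁻¹ : Lˣ) : L) * ((vb⁻¹ : Lˣ) : L) * (x : L) * ea +
              ((x⁻¹ : Lˣ) : L) * ((vb⁻¹ : Lˣ) : L) * (x : L) * (ev a) * h2L
          have hRU := h1 L A Q m ((x⁻¹ : Lˣ) : L) ((va * vb⁻¹ : Lˣ) : L) hfin hR.two hm hpm
            ⟨x⁻¹, Q.U.inv_mem hx, rfl⟩ ⟨va * vb⁻¹, Q.U.mul_mem hva (Q.U.inv_mem hvb), rfl⟩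
            ⟨x ^ k * x⁻¹, Q.U.mul_mem (Q.U.pow_mem hx k) (Q.U.inv_mem hx), by
              push_cast
              rw [hR.xk]
              linear_combination hxx⟩
            ⟨vc * vb⁻¹, Q.U.mul_mem hvc (Q.U.inv_mem hvb), by
              push_cast
              linear_combination ((vb⁻¹ : Lˣ) : L) * ec - ((vb⁻¹ : Lˣ) : L) * eb -
                ((vb⁻¹ : Lˣ) : L) * ea + hbb⟩
            (by rw [hsum]; exact hu.mul (Units.isUnit _))
            (fun N hN1 hN2 _ => all_of_inv hfin x hR.gn N hN1 hN2)
          have hfin2 : ev p = (((x⁻¹ : Lˣ) : L) + ((va * vb⁻¹ : Lˣ) : L)) * ((x * vb : Lˣ) : L) := by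
            rw [hsum]
            push_cast
            linear_combination (-(ev p) * (vb : L) * ((vb⁻¹ : Lˣ) : L)) * hxx - (ev p) * hbb
          rw [hfin2]
          exact In_mul Q hRU ⟨x * vb, Q.U.mul_mem hx hvb, rfl⟩
    · have hnu : ¬ IsUnit p := by
        intro h
        have := natDegree_eq_zero_of_isUnit h
        omega
      rw [irreducible_iff] at hirr
      push Not at hirr
      obtain ⟨a, b, hab, hau, hbu⟩ := hirr hnu
      have ha0 : a ≠ 0 := by
        rintro rfl
        rw [zero_mul] at hab
        exact hp0 hab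
      have hb0 : b ≠ 0 := by
        rintro rfl
        rw [mul_zero] at hab
        exact hp0 hab
      have hda : 0 < a.natDegree := by
        rcases Nat.eq_zero_or_pos a.natDegree with h | h
        · exact absurd (by rw [(monic_of_ne ha0).natDegree_eq_zero.1 h]; exact isUnit_one) hau
        · exact h
      have hdb : 0 < b.natDegree := by
        rcases Nat.eq_zero_or_pos b.natDegree with h | h
        · exact absurd (by rw [(monic_of_ne hb0).natDegree_eq_zero.1 h]; exact isUnit_one) hbu
        · exact h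
      have hdeg : p.natDegree = a.natDegree + b.natDegree := by
        rw [hab, natDegree_mul ha0 hb0]
      rw [hab, map_mul] at hu ⊢
      exact In_mul Q (ih a.natDegree (by omega) a rfl (isUnit_of_mul_isUnit_left hu))
        (ih b.natDegree (by omega) b rfl (isUnit_of_mul_isUnit_right hu))
  obtain ⟨p, hp⟩ := hsurj (u : L)
  obtain ⟨v, hv, e⟩ := key p.natDegree p rfl (by rw [hp]; exact u.isUnit)
  rw [hp] at e
  rw [← Units.ext e]
  exact hv

end Pool.Agent.Helper76.C2
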